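import Pool.Agent.Helper29.H2.St3

/-!
# Project H2 (MP_3ec731_nt), module D1: digits of a product without carries
-/

set_option autoImplicit false

namespace Pool.Agent.Helper29.H2

open Finset

private theorem dg_eq_D1 (b Z i : ℕ) : dg b Z i = Z / (2 ^ b) ^ i % 2 ^ b := by
  unfold dg
  rw [pow_mul]

private theorem dg_succ_D1 (b Z i : ℕ) : dg b Z (i + 1) = dg b (Z / 2 ^ b) i := by
  rw [dg_eq_D1, dg_eq_D1, pow_succ', Nat.div_div_eq_div_mul]

private theorem exp_D1 (b Z m : ℕ) :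
    Z ≡ ∑ t ∈ range m, dg b Z t * (2 ^ b) ^ t [MOD (2 ^ b) ^ m] := by
  have h : Z % (2 ^ b) ^ m = ∑ t ∈ range m, dg b Z t * (2 ^ b) ^ t := by
    induction m with
    | zero => rw [pow_zero, Nat.mod_one, sum_range_zero]
    | succ m ih => rw [Nat.mod_pow_succ, sum_range_succ, ih, dg_eq_D1, mul_comm ((2 ^ b) ^ m)]
  rw [← h]
  exact (Nat.mod_modEq _ _).symm

/-- the convolution -/
private def cv_D1 (b Y Z t : ℕ) : ℕ := ∑ i ∈ range (t + 1), dg b Y i * dg b Z (t - i)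

private theorem cv_zero_D1 (b Y Z : ℕ) : cv_D1 b Y Z 0 = dg b Y 0 * dg b Z 0 := by
  unfold cv_D1
  rw [zero_add, sum_range_one]

private theorem cv_succ_D1 (b Y Z t : ℕ) :
    cv_D1 b Y Z (t + 1) = dg b Y 0 * dg b Z (t + 1) + cv_D1 b (Y / 2 ^ b) Z t := by
  unfold cv_D1
  rw [sum_range_succ', Nat.sub_zero, add_comm]
  congr 1
  refine sum_congr rfl fun i _ => ?_
  rw [dg_succ_D1]
  congr 2
  omega

private theorem mod_D1 (b Z m : ℕ) : ∀ Y : ℕ,
    Y * Z ≡ ∑ t ∈ range m, cv_D1 b Y Z t * (2 ^ b) ^ t [MOD (2 ^ b) ^ m] := by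
  induction m with
  | zero =>
    intro Y
    rw [pow_zero]
    exact Nat.modEq_one
  | succ m ih =>
    intro Y
    have h1 : Y * Z = dg b Y 0 * Z + 2 ^ b * (Y / 2 ^ b * Z) := by
      have e : Y = dg b Y 0 + 2 ^ b * (Y / 2 ^ b) := by
        rw [dg_eq_D1, pow_zero, Nat.div_one]
        exact (Nat.mod_add_div _ _).symm
      calc Y * Z = (dg b Y 0 + 2 ^ b * (Y / 2 ^ b)) * Z := by rw [← e]
        _ = _ := by ring
    have h2 : dg b Y 0 * Z ≡ dg b Y 0 * ∑ t ∈ range (m + 1), dg b Z t * (2 ^ b) ^ t [MOD (2 ^ b) ^ (m + 1)] :=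
      (exp_D1 b Z (m + 1)).mul_left _
    have h3 : 2 ^ b * (Y / 2 ^ b * Z) ≡ 2 ^ b * ∑ t ∈ range m, cv_D1 b (Y / 2 ^ b) Z t * (2 ^ b) ^ t
        [MOD (2 ^ b) ^ (m + 1)] := by
      rw [pow_succ']
      exact (ih (Y / 2 ^ b)).mul_left' _
    have h4 : ∑ t ∈ range (m + 1), cv_D1 b Y Z t * (2 ^ b) ^ t =
        dg b Y 0 * (∑ t ∈ range (m + 1), dg b Z t * (2 ^ b) ^ t) +
          2 ^ b * ∑ t ∈ range m, cv_D1 b (Y / 2 ^ b) Z t * (2 ^ b) ^ t := by
      rw [sum_range_succ', sum_range_succ' (fun t => dg b Z t * (2 ^ b) ^ t), cv_zero_D1, mul_add, mul_sum,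
        mul_sum]
      have h5 : ∑ k ∈ range m, cv_D1 b Y Z (k + 1) * (2 ^ b) ^ (k + 1) =
          ∑ i ∈ range m, dg b Y 0 * (dg b Z (i + 1) * (2 ^ b) ^ (i + 1)) +
            ∑ i ∈ range m, 2 ^ b * (cv_D1 b (Y / 2 ^ b) Z i * (2 ^ b) ^ i) := by
        rw [← sum_add_distrib]
        refine sum_congr rfl fun t _ => ?_
        rw [cv_succ_D1]
        ring
      rw [h5]
      ring
    rw [h1, h4]
    exact h2.add h3

private theorem lt_D1 (B m : ℕ) (c : ℕ → ℕ) (hc : ∀ t < m, c t < B) : ∑ t ∈ range m, c t * B ^ t < B ^ m := by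
  induction m with
  | zero => rw [sum_range_zero, pow_zero]; exact Nat.one_pos
  | succ m ih =>
    rw [sum_range_succ]
    have h1 := ih fun t ht => hc t (by omega)
    have h2 : c m + 1 ≤ B := hc m (by omega)
    calc ∑ t ∈ range m, c t * B ^ t + c m * B ^ m < B ^ m + c m * B ^ m := by omega
      _ = (c m + 1) * B ^ m := by ring
      _ ≤ B * B ^ m := Nat.mul_le_mul_right _ h2
      _ = B ^ (m + 1) := by rw [pow_succ']

theorem hD1 : StD1 := by
  intro b n β γ Y Z hb hY hZ _ _ hn S hS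
  have hB : 0 < 2 ^ b := by positivity
  have hc : ∀ t < n, cv_D1 b Y Z t < 2 ^ b := by
    intro t ht
    unfold cv_D1
    have h1 : ∑ i ∈ range (t + 1), dg b Y i * dg b Z (t - i) < ∑ _i ∈ range (t + 1), 2 ^ (β + γ) := by
      refine sum_lt_sum_of_nonempty ⟨0, by simp⟩ fun i _ => ?_
      rw [pow_add]
      exact Nat.mul_lt_mul'' (hY i) (hZ _)
    rw [sum_const, card_range, smul_eq_mul] at h1
    calc _ < (t + 1) * 2 ^ (β + γ) := h1
      _ ≤ n * 2 ^ (β + γ) := Nat.mul_le_mul_right _ ht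
      _ ≤ 2 ^ b := hn
  have h1 : Y * Z % 2 ^ (b * n) % (2 ^ b) ^ (S + 1) = ∑ t ∈ range (S + 1), cv_D1 b Y Z t * (2 ^ b) ^ t := by
    rw [pow_mul, Nat.mod_mod_of_dvd _ (pow_dvd_pow _ (by omega : S + 1 ≤ n))]
    have h2 := mod_D1 b Z (S + 1) Y
    unfold Nat.ModEq at h2
    rw [h2]
    exact Nat.mod_eq_of_lt (lt_D1 _ _ _ fun t ht => hc t (by omega))
  rw [dg_eq_D1, ← Nat.mod_mul_right_div_self, ← pow_succ, h1, sum_range_succ,
    Nat.add_mul_div_right _ _ (by positivity : 0 < (2 ^ b) ^ S),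
    Nat.div_eq_of_lt (lt_D1 _ _ _ fun t ht => hc t (by omega)), zero_add]
  rfl

end Pool.Agent.Helper29.H2
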